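import Pool.Agent.Lib.MP_359af5_co.GlueD
import Pool.Agent.Lib.MP_359af5_co.Sharp
import Pool.Agent.Lib.MP_359af5_co.PlanarIneq

/-!
# MP_359af5_co : the points-lines-planes inequality, sharp form with the case of equality
-/

namespace Pool.Agent.Results.MP_359af5_co.SharpInequality

open Finset

/-- The space `ℝ^d`. -/
abbrev Sp (d : ℕ) := EuclideanSpace ℝ (Fin d)

variable {d : ℕ}

/-- A line (affine subspace of dimension one) is determined by `S` if it contains at least two
points of `S`. -/
def IsDeterminedLine (S : Finset (Sp d)) (L : AffineSubspace ℝ (Sp d)) : Prop :=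
  Module.finrank ℝ L.direction = 1 ∧ ∃ x ∈ S, ∃ y ∈ S, x ≠ y ∧ x ∈ L ∧ y ∈ L

/-- A plane (affine subspace of dimension two) is determined by `S` if it contains three
non-collinear points of `S`. -/
def IsDeterminedPlane (S : Finset (Sp d)) (A : AffineSubspace ℝ (Sp d)) : Prop :=
  Module.finrank ℝ A.direction = 2 ∧
    ∃ x ∈ S, ∃ y ∈ S, ∃ z ∈ S, ¬ Collinear ℝ ({x, y, z} : Set (Sp d)) ∧ x ∈ A ∧ y ∈ A ∧ z ∈ A

/-- The number of lines determined by `S`. -/
noncomputable def numLines (S : Finset (Sp d)) : ℕ := {L | IsDeterminedLine S L}.ncard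

/-- The number of planes determined by `S`. -/
noncomputable def numPlanes (S : Finset (Sp d)) : ℕ := {A | IsDeterminedPlane S A}.ncard

/-- No three points of `S` are collinear and no four points of `S` are coplanar. -/
def GeneralPosition (S : Finset (Sp d)) : Prop :=
  (∀ T ⊆ S, #T = 3 → ¬ Collinear ℝ (T : Set (Sp d))) ∧
  (∀ T ⊆ S, #T = 4 → ¬ Coplanar ℝ (T : Set (Sp d)))

open Pool.Agent.Lib.MP_359af5_co

private lemma range2 (x y : Sp d) : Set.range ![x, y] = ({x, y} : Set (Sp d)) := by
  ext w
  simp [eq_comm, or_comm]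

private lemma range3 (x y z : Sp d) : Set.range ![x, y, z] = ({x, y, z} : Set (Sp d)) := by
  ext w
  simp [eq_comm]
  tauto

private lemma finrank_line {x y : Sp d} (h : x ≠ y) :
    Module.finrank ℝ (affineSpan ℝ ({x, y} : Set (Sp d))).direction = 1 := by
  have hai : AffineIndependent ℝ ![x, y] := affineIndependent_of_ne ℝ h
  have h1 : Module.finrank ℝ (vectorSpan ℝ (Set.range ![x, y])) = 1 :=
    hai.finrank_vectorSpan (by simp)
  rwa [range2, ← direction_affineSpan] at h1

private lemma finrank_plane {x y z : Sp d} (h : ¬ Collinear ℝ ({x, y, z} : Set (Sp d))) :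
    Module.finrank ℝ (affineSpan ℝ ({x, y, z} : Set (Sp d))).direction = 2 := by
  have hai : AffineIndependent ℝ ![x, y, z] := affineIndependent_iff_not_collinear_set.2 h
  have h1 : Module.finrank ℝ (vectorSpan ℝ (Set.range ![x, y, z])) = 2 :=
    hai.finrank_vectorSpan (by simp)
  rwa [range3, ← direction_affineSpan] at h1

private lemma lines_eq (S : Finset (Sp d)) : {L | IsDeterminedLine S L} = GD.LS S := by
  ext L
  constructor
  · rintro ⟨h1, x, hx, y, hy, hxy, hxL, hyL⟩
    refine ⟨x, hx, y, hy, hxy, ?_⟩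
    have hle : affineSpan ℝ ({x, y} : Set (Sp d)) ≤ L := GD.line_le hxL hyL
    symm
    apply AffineSubspace.eq_of_direction_eq_of_nonempty_of_le _
      ⟨x, subset_affineSpan _ _ (by simp)⟩ hle
    apply Submodule.eq_of_le_of_finrank_le (AffineSubspace.direction_le hle)
    rw [finrank_line hxy, h1]
  · rintro ⟨x, hx, y, hy, hxy, rfl⟩
    exact ⟨finrank_line hxy, x, hx, y, hy, hxy, subset_affineSpan _ _ (by simp),
      subset_affineSpan _ _ (by simp)⟩

private lemma planes_eq (S : Finset (Sp d)) : {A | IsDeterminedPlane S A} = GD.PS S := by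
  ext L
  constructor
  · rintro ⟨h1, x, hx, y, hy, z, hz, hxyz, hxL, hyL, hzL⟩
    refine ⟨x, hx, y, hy, z, hz, hxyz, ?_⟩
    have hle : affineSpan ℝ ({x, y, z} : Set (Sp d)) ≤ L := by
      rw [affineSpan_le]
      rintro w (rfl | rfl | rfl)
      · exact hxL
      · exact hyL
      · exact hzL
    symm
    apply AffineSubspace.eq_of_direction_eq_of_nonempty_of_le _
      ⟨x, subset_affineSpan _ _ (by simp)⟩ hle
    apply Submodule.eq_of_le_of_finrank_le (AffineSubspace.direction_le hle)
    rw [finrank_plane hxyz, h1]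
  · rintro ⟨x, hx, y, hy, z, hz, hxyz, rfl⟩
    exact ⟨finrank_plane hxyz, x, hx, y, hy, z, hz, hxyz, subset_affineSpan _ _ (by simp),
      subset_affineSpan _ _ (by simp), subset_affineSpan _ _ (by simp)⟩

private lemma three_le {S : Finset (Sp d)} {j : Finset (Sp d)} (hj : j ∈ GD.planes S) :
    3 ≤ #j := by
  classical
  obtain ⟨x, hx, y, hy, z, hz, hxyz, rfl⟩ := GD.mem_planes.1 hj
  have h1 : #({x, y, z} : Finset (Sp d)) = 3 :=
    card_eq_three.2 ⟨x, y, z, ne₁₂_of_not_collinear hxyz, ne₁₃_of_not_collinear hxyz,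
      ne₂₃_of_not_collinear hxyz, rfl⟩
  rw [← h1]
  apply card_le_card
  intro w hw
  simp only [mem_insert, mem_singleton] at hw
  rcases hw with rfl | rfl | rfl
  · exact GD.mem_flat.2 ⟨hx, subset_affineSpan _ _ (by simp)⟩
  · exact GD.mem_flat.2 ⟨hy, subset_affineSpan _ _ (by simp)⟩
  · exact GD.mem_flat.2 ⟨hz, subset_affineSpan _ _ (by simp)⟩

private lemma gen_iff (S : Finset (Sp d)) :
    ((∀ m ∈ GD.lines S, #m = 2) ∧ ∀ j ∈ GD.planes S, #j = 3) ↔ GeneralPosition S := by
  classical
  constructor
  · rintro ⟨h2, h3⟩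
    have hA : ∀ T ⊆ S, #T = 3 → ¬ Collinear ℝ (T : Set (Sp d)) := by
      intro T hT hT3 hc
      obtain ⟨x, y, z, hxy, hxz, hyz, rfl⟩ := card_eq_three.1 hT3
      have hx : x ∈ S := hT (by simp)
      have hy : y ∈ S := hT (by simp)
      have hm : GD.flat S (affineSpan ℝ ({x, y} : Set (Sp d))) ∈ GD.lines S :=
        GD.mem_lines.2 ⟨x, hx, y, hy, hxy, rfl⟩
      have hsub : ({x, y, z} : Finset (Sp d)) ⊆ GD.flat S (affineSpan ℝ ({x, y} : Set (Sp d))) := by
        intro w hw
        refine GD.mem_flat.2 ⟨hT hw, ?_⟩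
        rw [hc.affineSpan_eq_of_ne (p₁ := x) (p₂ := y) (by simp) (by simp) hxy]
        exact subset_affineSpan _ _ (mem_coe.2 hw)
      have := card_le_card hsub
      rw [hT3, h2 _ hm] at this
      omega
    refine ⟨hA, ?_⟩
    intro T hT hT4 hc
    obtain ⟨T', hT', hT3⟩ := exists_subset_card_eq (show 3 ≤ #T by omega)
    have hnc := hA T' (hT'.trans hT) hT3
    obtain ⟨x, y, z, hxy, hxz, hyz, rfl⟩ := card_eq_three.1 hT3
    have hnc' : ¬ Collinear ℝ ({x, y, z} : Set (Sp d)) := by
      simpa using hnc
    have hx : x ∈ S := hT (hT' (by simp))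
    have hy : y ∈ S := hT (hT' (by simp))
    have hz : z ∈ S := hT (hT' (by simp))
    have hj : GD.flat S (affineSpan ℝ ({x, y, z} : Set (Sp d))) ∈ GD.planes S :=
      GD.mem_planes.2 ⟨x, hx, y, hy, z, hz, hnc', rfl⟩
    have hspan : affineSpan ℝ ({x, y, z} : Set (Sp d)) = affineSpan ℝ (T : Set (Sp d)) := by
      have hle : affineSpan ℝ ({x, y, z} : Set (Sp d)) ≤ affineSpan ℝ (T : Set (Sp d)) := by
        apply affineSpan_mono
        have : (({x, y, z} : Finset (Sp d)) : Set (Sp d)) ⊆ T := by exact_mod_cast hT'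
        simpa using this
      apply AffineSubspace.eq_of_direction_eq_of_nonempty_of_le _
        ⟨x, subset_affineSpan _ _ (by simp)⟩ hle
      apply Submodule.eq_of_le_of_finrank_le (AffineSubspace.direction_le hle)
      rw [finrank_plane hnc', direction_affineSpan]
      exact coplanar_iff_finrank_le_two.1 hc
    have hsub : T ⊆ GD.flat S (affineSpan ℝ ({x, y, z} : Set (Sp d))) := by
      intro w hw
      refine GD.mem_flat.2 ⟨hT hw, ?_⟩
      rw [hspan]
      exact subset_affineSpan _ _ (mem_coe.2 hw)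
    have := card_le_card hsub
    rw [hT4, h3 _ hj] at this
    omega
  · rintro ⟨hA, hB⟩
    constructor
    · intro m hm
      have h2 := (GD.linSpace S).two m hm
      by_contra hne
      obtain ⟨T, hT, hT3⟩ := exists_subset_card_eq (show 3 ≤ #m by omega)
      refine hA T (hT.trans ((GD.linSpace S).sub m hm)) hT3 ?_
      obtain ⟨x, hx, y, hy, hxy, rfl⟩ := GD.mem_lines.1 hm
      have hc : Collinear ℝ ((affineSpan ℝ ({x, y} : Set (Sp d)) : AffineSubspace ℝ (Sp d)) :
          Set (Sp d)) := by
        rw [collinear_iff_finrank_le_one]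
        have := finrank_line hxy
        rw [AffineSubspace.direction] at this
        omega
      apply hc.subset
      intro w hw
      exact (GD.mem_flat.1 (hT (mem_coe.1 hw))).2
    · intro j hj
      have h3 := three_le hj
      by_contra hne
      obtain ⟨T, hT, hT4⟩ := exists_subset_card_eq (show 4 ≤ #j by omega)
      refine hB T (hT.trans ((GD.geom S).jsub j hj)) hT4 ?_
      obtain ⟨x, hx, y, hy, z, hz, hxyz, rfl⟩ := GD.mem_planes.1 hj
      have hc : Coplanar ℝ ((affineSpan ℝ ({x, y, z} : Set (Sp d)) : AffineSubspace ℝ (Sp d)) :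
          Set (Sp d)) := by
        rw [coplanar_iff_finrank_le_two]
        have := finrank_plane hxyz
        rw [AffineSubspace.direction] at this
        omega
      apply hc.subset
      intro w hw
      exact (GD.mem_flat.1 (hT (mem_coe.1 hw))).2

/-- For every finite set `S` of `p` points of `ℝ^d` with `l` determined lines and `π` determined
planes: `3 p π ≤ 2 l²`; more precisely `3 (p - 1) p π ≤ 2 (p - 2) l²` (truncated subtraction; for
`p ≤ 2` both sides are zero), with equality if and only if no three points are collinear and no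
four points are coplanar. (The two sets counted are finite.) -/
theorem result (d : ℕ) (S : Finset (EuclideanSpace ℝ (Fin d))) :
    ({L | IsDeterminedLine S L}.Finite ∧ {A | IsDeterminedPlane S A}.Finite) ∧
    3 * #S * numPlanes S ≤ 2 * numLines S ^ 2 ∧
    3 * (#S - 1) * #S * numPlanes S ≤ 2 * (#S - 2) * numLines S ^ 2 ∧
    (3 * (#S - 1) * #S * numPlanes S = 2 * (#S - 2) * numLines S ^ 2 ↔ GeneralPosition S) := by
  classical
  have hfin : {L | IsDeterminedLine S L}.Finite ∧ {A | IsDeterminedPlane S A}.Finite := by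
    rw [lines_eq, planes_eq]
    exact ⟨GD.LS_finite S, GD.PS_finite S⟩
  have hl : numLines S = #(GD.lines S) := by
    unfold numLines
    rw [lines_eq, GD.card_lines]
  have hp : numPlanes S = #(GD.planes S) := by
    unfold numPlanes
    rw [planes_eq, GD.card_planes]
  have hpl : ∀ j ∈ GD.planes S, Planar j ((GD.lines S).filter (· ⊆ j)) := by
    intro j hj
    apply GD.planar_of_mem _ S hj
    intro α _ P L h X Y hinj hline hnc h2
    exact h.planar hnc h2 (melchior h X Y hinj hline hnc h2)
  have hJ : #S ≤ 2 → GD.planes S = ∅ := by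
    intro h
    apply eq_empty_of_forall_notMem
    intro j hj
    have h1 := three_le hj
    have h2 := card_le_card ((GD.geom S).jsub j hj)
    omega
  obtain ⟨h1, h2⟩ := (GD.geom S).sharp hpl hJ
  rw [hl, hp]
  refine ⟨hfin, ?_, h1, ?_⟩
  · have h3 := (GD.geom S).main hpl
    have h4 : (3 * #S * #(GD.planes S) : ℝ) ≤ 2 * (#(GD.lines S) : ℝ) ^ 2 := by linarith
    exact_mod_cast h4
  · rcases Nat.lt_or_ge #S 3 with h | h
    · have h0 : #S - 2 = 0 := by omega
      rw [hJ (by omega), h0]
      simp only [card_empty, mul_zero, zero_mul, true_iff]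
      constructor
      · intro T hT hT3
        have := card_le_card hT
        omega
      · intro T hT hT3
        have := card_le_card hT
        omega
    · rw [h2 h]
      exact gen_iff S

end Pool.Agent.Results.MP_359af5_co.SharpInequality
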